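import Mathlib

/-!
# `p` divides the maximal height of the divisors of `x ^ (p q ^ b) - 1`

Let `p < q` be odd primes.  Every divisor of `x ^ (p q ^ b) - 1` is, up to sign,
`A (x) t (x) G (x ^ q)`, where `A` is one of `1, x - 1, Φ_p, x ^ p - 1`, where `t` is one of
`1, Φ_q, Φ_{p q}, Φ_q Φ_{p q}` and `G` divides `(x ^ (p q ^ (b - 1)) - 1) / (x ^ p - 1)`.
In all sixteen cases the height of `A (x) t (x) G (x ^ q)` is at most `p` times the height of `G`,
and for `A = Φ_p`, `t = Φ_q` it is exactly `p` times the height of `G`.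

The only difficult cases are `A ∈ {1, x - 1}` and `t = Φ_{p q}`. There the coefficients of
`Φ_{p q} (x) G (x ^ q)` are differences `P (J (n)) - P (J (n - 1))`, where `P` denotes the partial
sums of the coefficients of `G`, and `J (n)` is the largest integer `J ≤ n / q` with
`q J ≡ n (mod p)`.
-/

open Polynomial Finset

namespace Pool.Agent.Results.MP_b384de_nt.DivisibleByP

/-- The height of an integer polynomial: the largest absolute value of a coefficient. -/
def height (f : ℤ[X]) : ℕ := f.support.sup fun k => (f.coeff k).natAbs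

/-- all coefficients are at most `H` in absolute value -/
def Bd (H : ℤ) (f : ℤ[X]) : Prop := ∀ n, |f.coeff n| ≤ H

/-- `1 + x + ⋯ + x ^ (n - 1)` -/
noncomputable def S (n : ℕ) : ℤ[X] := ∑ j ∈ range n, X ^ j

theorem coeff_S (q n : ℕ) : (S q).coeff n = if n < q then 1 else 0 := by
  unfold S
  simp [coeff_X_pow]

theorem S_mul (n : ℕ) : S n * (X - 1) = X ^ n - 1 := by unfold S; exact geom_sum_mul _ _

theorem le_height (f : ℤ[X]) (k : ℕ) : (f.coeff k).natAbs ≤ height f := by
  by_cases hk : k ∈ f.support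
  · exact Finset.le_sup (f := fun k => (f.coeff k).natAbs) hk
  · rw [notMem_support_iff] at hk
    simp [hk]

theorem bd_height (f : ℤ[X]) : Bd (height f) f := by
  intro n
  have := le_height f n
  rw [Int.abs_eq_natAbs]
  exact_mod_cast this

theorem height_le {f : ℤ[X]} {H : ℕ} (h : Bd H f) : height f ≤ H := by
  unfold height
  apply Finset.sup_le
  intro k _
  have := h k
  rw [Int.abs_eq_natAbs] at this
  exact_mod_cast this

theorem Bd.mono {H K : ℤ} {f : ℤ[X]} (h : Bd H f) (hHK : H ≤ K) : Bd K f :=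
  fun n => (h n).trans hHK

theorem Bd.nonneg {H : ℤ} {f : ℤ[X]} (h : Bd H f) : 0 ≤ H := (abs_nonneg _).trans (h 0)

theorem Bd.X_pow_mul {H : ℤ} {f : ℤ[X]} (h : Bd H f) (k : ℕ) : Bd H (X ^ k * f) := by
  intro n
  rw [coeff_X_pow_mul']
  split_ifs
  · exact h _
  · simpa using h.nonneg

theorem Bd.X_pow_sub_one_mul {H : ℤ} {f : ℤ[X]} (h : Bd H f) (k : ℕ) :
    Bd (2 * H) ((X ^ k - 1) * f) := by
  intro n
  have h1 := h.X_pow_mul k n
  have h2 := h n
  rw [sub_mul, one_mul, coeff_sub]
  rw [abs_le] at *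
  constructor <;> linarith

theorem Bd.S_mul' {H : ℤ} {f : ℤ[X]} (h : Bd H f) (p : ℕ) : Bd (p * H) (S p * f) := by
  intro n
  unfold S
  rw [Finset.sum_mul, finsetSum_coeff]
  refine (Finset.abs_sum_le_sum_abs _ _).trans ?_
  refine (Finset.sum_le_sum fun j _ => h.X_pow_mul j n).trans ?_
  simp

/-- The coefficient of `P (x) V (x ^ q)` at `r + q j`, when `P` vanishes at `r + q c`, `c ≥ 1`. -/
theorem coeff_mul_expand {q : ℕ} (hq : 0 < q) (P V : ℤ[X]) (r j : ℕ) (hr : r < q)
    (hP : ∀ c, 1 ≤ c → P.coeff (r + q * c) = 0) :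
    (P * expand ℤ q V).coeff (r + q * j) = P.coeff r * V.coeff j := by
  rw [coeff_mul, Finset.sum_eq_single (r, q * j)]
  · rw [coeff_expand_mul' hq]
  · rintro ⟨u, v⟩ huv hne
    rw [Finset.HasAntidiagonal.mem_antidiagonal] at huv
    rw [coeff_expand hq]
    split_ifs with hd
    · obtain ⟨k, rfl⟩ := hd
      rw [Nat.mul_div_cancel_left _ hq]
      have hkj : k ≤ j := by
        by_contra hlt
        push Not at hlt
        have : q * (j + 1) ≤ q * k := Nat.mul_le_mul_left q hlt
        rw [Nat.mul_add] at this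
        omega
      obtain ⟨c, rfl⟩ := Nat.exists_eq_add_of_le hkj
      have hu : u = r + q * c := by rw [Nat.mul_add] at huv; omega
      rcases Nat.eq_zero_or_pos c with h0 | h0
      · exfalso
        apply hne
        subst h0
        rw [hu]; simp
      · rw [hu, hP c h0, zero_mul]
    · simp
  · intro h
    exact absurd (by rw [Finset.HasAntidiagonal.mem_antidiagonal]) h

/-- A factor of degree less than `q` with small coefficients. -/
theorem Bd.mul_expand {q : ℕ} (hq : 0 < q) {P G : ℤ[X]} {H : ℤ} (hP : ∀ n, q ≤ n → P.coeff n = 0)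
    (hP1 : Bd 1 P) (hG : Bd H G) : Bd H (P * expand ℤ q G) := by
  intro n
  have hn : n = n % q + q * (n / q) := (Nat.mod_add_div n q).symm
  rw [hn, coeff_mul_expand hq P G (n % q) (n / q) (Nat.mod_lt _ hq), abs_mul]
  · have h1 := hP1 (n % q)
    have h2 := hG (n / q)
    have h3 := abs_nonneg (P.coeff (n % q))
    have h4 := abs_nonneg (G.coeff (n / q))
    nlinarith
  · intro c hc
    apply hP
    nlinarith [Nat.zero_le (n % q)]

theorem Bd.expand {q : ℕ} (hq : 0 < q) {G : ℤ[X]} {H : ℤ} (hG : Bd H G) :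
    Bd H (expand ℤ q G) := by
  intro n
  rw [coeff_expand hq]
  split_ifs
  · exact hG _
  · simpa using hG.nonneg

/-! ### The factor `S_q (x ^ p)` -/

theorem bd_both {p q : ℕ} (hq : 0 < q) (hc : Nat.Coprime p q) {G : ℤ[X]} {H : ℤ}
    (hG : Bd H G) : Bd H (Polynomial.expand ℤ p (S q) * Polynomial.expand ℤ q G) := by
  intro n
  have e : Polynomial.expand ℤ p (S q) * Polynomial.expand ℤ q G =
      ∑ j ∈ range q, X ^ (p * j) * Polynomial.expand ℤ q G := by
    unfold S
    rw [map_sum, Finset.sum_mul]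
    apply Finset.sum_congr rfl
    intro j _
    rw [map_pow, expand_X, ← pow_mul]
  rw [e, finsetSum_coeff]
  by_cases hex : ∃ j ∈ range q, p * j ≤ n ∧ q ∣ n - p * j
  · obtain ⟨j, hj, hjn, hjd⟩ := hex
    rw [Finset.sum_eq_single j]
    · exact ((hG.expand hq).X_pow_mul (p * j)) n
    · intro i hi hij
      rw [coeff_X_pow_mul']
      split_ifs with hin
      · rw [coeff_expand hq, if_neg]
        intro hid
        apply hij
        rw [Finset.mem_range] at hi hj
        have h1 : p * i ≡ p * j [MOD q] := by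
          have h2 : n ≡ p * i [MOD q] := ((Nat.modEq_iff_dvd' hin).2 hid).symm
          have h3 : n ≡ p * j [MOD q] := ((Nat.modEq_iff_dvd' hjn).2 hjd).symm
          exact h2.symm.trans h3
        have h4 : i ≡ j [MOD q] := Nat.ModEq.cancel_left_of_coprime (by
          rw [Nat.gcd_comm]; exact hc) h1
        exact Nat.ModEq.eq_of_lt_of_lt h4 hi hj
      · rfl
    · intro h; exact absurd hj h
  · rw [Finset.sum_eq_zero]
    · simpa using hG.nonneg
    · intro j hj
      rw [coeff_X_pow_mul']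
      split_ifs with h
      · rw [coeff_expand hq, if_neg]
        intro hd
        exact hex ⟨j, hj, h, hd⟩
      · rfl

/-! ### The factor `Φ_{p q}` -/

/-- the coefficients as a function on `ℤ` -/
def co (f : ℤ[X]) (n : ℤ) : ℤ := if 0 ≤ n then f.coeff n.toNat else 0

/-- partial sums of the coefficients -/
def ps (f : ℤ[X]) (n : ℤ) : ℤ := ∑ t ∈ range (n + 1).toNat, f.coeff t

theorem co_neg (f : ℤ[X]) {n : ℤ} (h : n < 0) : co f n = 0 := by
  unfold co; rw [if_neg (by omega)]

theorem co_nat (f : ℤ[X]) (n : ℕ) : co f n = f.coeff n := by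
  unfold co; simp

theorem ps_neg (f : ℤ[X]) {n : ℤ} (h : n < 0) : ps f n = 0 := by
  unfold ps
  rw [Int.toNat_of_nonpos (by omega)]
  simp

theorem ps_succ (f : ℤ[X]) (n : ℤ) : ps f n = ps f (n - 1) + co f n := by
  rcases lt_or_ge n 0 with h | h
  · rw [ps_neg f h, ps_neg f (by omega), co_neg f h, add_zero]
  · obtain ⟨m, rfl⟩ := Int.eq_ofNat_of_zero_le h
    unfold ps
    have e1 : ((m : ℤ) + 1).toNat = m + 1 := by omega
    have e2 : ((m : ℤ) - 1 + 1).toNat = m := by omega
    rw [e1, e2, Finset.sum_range_succ, co_nat]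

theorem ps_lip {H : ℤ} {f : ℤ[X]} (h : Bd H f) (n : ℤ) (k : ℕ) :
    |ps f (n + k) - ps f n| ≤ k * H := by
  induction k with
  | zero => simp
  | succ k ih =>
    have e : ps f (n + (k + 1 : ℕ)) = ps f (n + k) + co f (n + (k + 1 : ℕ)) := by
      rw [ps_succ]
      congr 2
      push_cast; ring
    have h2 : |co f (n + (k + 1 : ℕ))| ≤ H := by
      unfold co
      split_ifs
      · exact h _
      · simpa using h.nonneg
    rw [e]
    generalize co f (n + (k + 1 : ℕ)) = z at h2 ⊢
    have h3 : ((k + 1 : ℕ) : ℤ) * H = k * H + H := by push_cast; ring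
    rw [h3]
    rw [abs_le] at *
    constructor <;> linarith

theorem ps_lip' {H : ℤ} {f : ℤ[X]} (h : Bd H f) (a b : ℤ) :
    |ps f a - ps f b| ≤ |a - b| * H := by
  rcases le_total b a with hab | hab
  · obtain ⟨k, hk⟩ := Int.eq_ofNat_of_zero_le (sub_nonneg.2 hab)
    have ha : a = b + k := by omega
    rw [ha, add_sub_cancel_left, Nat.abs_cast]
    exact ps_lip h b k
  · obtain ⟨k, hk⟩ := Int.eq_ofNat_of_zero_le (sub_nonneg.2 hab)
    have hb : b = a + k := by omega
    rw [abs_sub_comm, abs_sub_comm a b, hb, add_sub_cancel_left, Nat.abs_cast]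
    exact ps_lip h a k

/-- `S_p G` has the differences of the partial sums of `G` as coefficients. -/
theorem co_S_mul (G : ℤ[X]) (p : ℕ) (n : ℤ) : co (S p * G) n = ps G n - ps G (n - p) := by
  induction p with
  | zero => simp [S, co]
  | succ p ih =>
    have e : S (p + 1) * G = S p * G + X ^ p * G := by
      unfold S; rw [Finset.sum_range_succ]; ring
    have h1 : co (S (p + 1) * G) n = co (S p * G) n + co (X ^ p * G) n := by
      unfold co
      rw [e]
      split_ifs <;> simp
    have h2 : co (X ^ p * G) n = co G (n - p) := by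
      unfold co
      by_cases h0 : 0 ≤ n
      · rw [if_pos h0, coeff_X_pow_mul']
        by_cases h3 : p ≤ n.toNat
        · rw [if_pos h3, if_pos (by omega)]
          congr 1
          omega
        · rw [if_neg h3, if_neg (by omega)]
      · rw [if_neg h0, if_neg (by omega)]
    rw [h1, h2, ih, ps_succ G (n - p)]
    have : n - (p : ℤ) - 1 = n - ((p + 1 : ℕ) : ℤ) := by push_cast; ring
    rw [this]
    ring

/-- The defining property of `J (n)`. -/
def IsJ (p q : ℕ) (n J : ℤ) : Prop := J ≤ n / q ∧ n / q < J + p ∧ (p : ℤ) ∣ q * J - n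

theorem exists_J {p q : ℕ} (hp : 0 < p) (hc : Nat.Coprime p q) (n : ℤ) : ∃ J, IsJ p q n J := by
  -- an inverse of `q` modulo `p`
  have hco : IsCoprime (q : ℤ) (p : ℤ) := by
    rw [Int.isCoprime_iff_gcd_eq_one]; simpa [Int.gcd_natCast_natCast, Nat.gcd_comm] using hc
  obtain ⟨a, b, hab⟩ := hco
  -- `q (a n) ≡ n`
  obtain ⟨m, hm⟩ : ∃ m : ℤ, m = n / q := ⟨_, rfl⟩
  refine ⟨m - (m - a * n) % p, ?_, ?_, ?_⟩
  · have := Int.emod_nonneg (m - a * n) (show (p : ℤ) ≠ 0 by omega)
    omega
  · have := Int.emod_lt_of_pos (m - a * n) (show (0 : ℤ) < p by omega)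
    omega
  · have h1 : (m - a * n) % p = (m - a * n) - p * ((m - a * n) / p) := by
      have := Int.emod_add_mul_ediv (m - a * n) p
      linarith
    rw [h1]
    refine ⟨q * ((m - a * n) / p) - b * n, ?_⟩
    linear_combination n * hab

theorem J_unique {p q : ℕ} (hc : Nat.Coprime p q) {n n' J J' : ℤ} (hd : (p : ℤ) ∣ q * J - n)
    (hd' : (p : ℤ) ∣ q * J' - n') (hn : n = n') (h1 : J - J' < p) (h2 : J' - J < p) : J = J' := by
  have h3 : (p : ℤ) ∣ q * (J - J') := by
    have := dvd_sub hd hd'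
    rw [hn] at this
    have e : (q : ℤ) * J - n' - (q * J' - n') = q * (J - J') := by ring
    rwa [e] at this
  have hco : IsCoprime (p : ℤ) (q : ℤ) := by
    rw [Int.isCoprime_iff_gcd_eq_one]; simpa [Int.gcd_natCast_natCast] using hc
  have h4 : (p : ℤ) ∣ J - J' := hco.dvd_of_dvd_mul_left h3
  obtain ⟨c, hcc⟩ := h4
  have : c = 0 := by
    by_contra hne
    rcases lt_or_gt_of_ne hne with h | h
    · nlinarith
    · nlinarith
  rw [this] at hcc
  omega

/-- the coefficients of `G (x ^ q)` as a function on `ℤ` -/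
theorem co_expand (G : ℤ[X]) {q : ℕ} (hq : 0 < q) (n : ℤ) :
    co (Polynomial.expand ℤ q G) n = if (q : ℤ) ∣ n then co G (n / q) else 0 := by
  rcases lt_or_ge n 0 with h | h
  · rw [co_neg _ h]
    split_ifs
    · rw [co_neg _ (Int.ediv_neg_of_neg_of_pos h (by omega))]
    · rfl
  · obtain ⟨m, rfl⟩ := Int.eq_ofNat_of_zero_le h
    rw [co_nat, coeff_expand hq]
    by_cases hd : q ∣ m
    · rw [if_pos hd, if_pos (by exact_mod_cast hd)]
      have : (m : ℤ) / (q : ℤ) = ((m / q : ℕ) : ℤ) := by simp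
      rw [this, co_nat]
    · rw [if_neg hd, if_neg (by exact_mod_cast hd)]

theorem ediv_sub_cases {p q : ℕ} (hq : 0 < q) (hpq : p ≤ q) (n : ℤ) :
    (n - p) / q = n / q ∨ ((n - p) / q = n / q - 1 ∧ n < q * (n / q) + p) := by
  have hq' : (0 : ℤ) < q := by exact_mod_cast hq
  have h1 := Int.emod_add_mul_ediv n q
  have h2 := Int.emod_nonneg n hq'.ne'
  have h3 := Int.emod_lt_of_pos n hq'
  rcases le_or_gt (p : ℤ) (n % q) with h | h
  · left
    have e : n - p = (n % q - p) + q * (n / q) := by linarith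
    rw [e, Int.add_mul_ediv_left _ _ hq'.ne', Int.ediv_eq_zero_of_lt (by omega) (by omega)]
    ring
  · right
    refine ⟨?_, by linarith⟩
    have e : n - p = (n % q - p + q) + q * (n / q - 1) := by linear_combination -h1
    have hpq' : (p : ℤ) ≤ q := by exact_mod_cast hpq
    rw [e, Int.add_mul_ediv_left _ _ hq'.ne', Int.ediv_eq_zero_of_lt (by omega) (by omega)]
    ring

/-- `P (J (n)) - P (J (n - p))` is the coefficient of `S_p (x ^ q) G (x ^ q)` at `n`. -/
theorem step_J {p q : ℕ} (hpq : p < q) (hc : Nat.Coprime p q) (G : ℤ[X])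
    {n J J' : ℤ} (hJ : IsJ p q n J) (hJ' : IsJ p q (n - p) J') :
    ps G J - ps G J' = co (Polynomial.expand ℤ q (S p * G)) n := by
  obtain ⟨a1, a2, a3⟩ := hJ
  obtain ⟨b1, b2, b3⟩ := hJ'
  have hq' : (0 : ℤ) < q := by exact_mod_cast (by omega : 0 < q)
  have b3' : (p : ℤ) ∣ q * J' - n := by
    have := dvd_sub b3 (dvd_refl (p : ℤ))
    have e : (q : ℤ) * J' - (n - p) - p = q * J' - n := by ring
    rwa [e] at this
  rw [co_expand _ (by omega)]
  by_cases hd : (q : ℤ) ∣ n
  · rw [if_pos hd, co_S_mul]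
    obtain ⟨m, rfl⟩ := hd
    rw [Int.mul_ediv_cancel_left _ hq'.ne'] at *
    have e1 : J = m := by
      apply J_unique (p := p) (q := q) hc (n := q * m) (n' := q * m) a3 (by simp) rfl <;> omega
    have e2 : ((q : ℤ) * m - p) / q = m - 1 := by
      rcases ediv_sub_cases (p := p) (q := q) (by omega) hpq.le (q * m) with h | h
      · exfalso
        rw [Int.mul_ediv_cancel_left _ hq'.ne'] at h
        have := Int.mul_ediv_self_le (x := (q : ℤ) * m - p) (k := q) hq'.ne'
        rw [h] at this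
        omega
      · rw [Int.mul_ediv_cancel_left _ hq'.ne'] at h
        exact h.1
    rw [e2] at b1 b2
    have e3 : J' = m - p := by
      apply J_unique (p := p) (q := q) hc (n := q * m) (n' := q * m) b3' _ rfl <;> try omega
      refine ⟨-q, ?_⟩
      ring
    rw [e1, e3]
  · rw [if_neg hd, sub_eq_zero]
    congr 1
    rcases ediv_sub_cases (p := p) (q := q) (by omega) hpq.le n with h | ⟨h, h'⟩
    · rw [h] at b1 b2
      apply J_unique (p := p) (q := q) hc a3 b3' rfl <;> omega
    · rw [h] at b1 b2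
      have hne : J ≠ n / q := by
        intro hJe
        rw [hJe] at a3
        have h1 := Int.emod_add_mul_ediv n q
        have h2 := Int.emod_nonneg n hq'.ne'
        have h4 : (p : ℤ) ∣ n % q := by
          have := (dvd_neg (a := (p : ℤ))).2 a3
          have e : -((q : ℤ) * (n / q) - n) = n % q := by linarith
          rwa [e] at this
        have h5 : n % q = 0 := Int.eq_zero_of_dvd_of_nonneg_of_lt h2 (by omega) h4
        exact hd (Int.dvd_of_emod_eq_zero h5)
      apply J_unique (p := p) (q := q) hc a3 b3' rfl <;> omega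

/-- The coefficients of `Φ_{p q} (x) G (x ^ q)`. -/
theorem coeff_phi {p q : ℕ} (hp : 0 < p) (hpq : p < q) (hc : Nat.Coprime p q) (G F : ℤ[X])
    (hF : F * (X ^ p - 1) = (X - 1) * Polynomial.expand ℤ q (S p * G)) (J : ℤ → ℤ)
    (hJ : ∀ n, IsJ p q n (J n)) : ∀ n : ℤ, co F n = ps G (J n) - ps G (J (n - 1)) := by
  -- the recursion
  have hrec : ∀ n : ℤ, co F (n - p) - co F n =
      co (Polynomial.expand ℤ q (S p * G)) (n - 1) - co (Polynomial.expand ℤ q (S p * G)) n := by
    intro n
    rcases lt_or_ge n 0 with h | h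
    · rw [co_neg _ h, co_neg _ (by omega), co_neg _ (by omega), co_neg _ h]
    · obtain ⟨m, rfl⟩ := Int.eq_ofNat_of_zero_le h
      have := congrArg (fun f => Polynomial.coeff f m) hF
      simp only [mul_sub, mul_one, sub_mul, one_mul, coeff_sub] at this
      rw [coeff_mul_X_pow'] at this
      rw [co_nat, co_nat]
      have e1 : co F ((m : ℤ) - p) = if p ≤ m then F.coeff (m - p) else 0 := by
        unfold co
        by_cases h1 : p ≤ m
        · rw [if_pos h1, if_pos (by omega)]
          congr 1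
          omega
        · rw [if_neg h1, if_neg (by omega)]
      have e2 : co (Polynomial.expand ℤ q (S p * G)) ((m : ℤ) - 1) =
          (X * Polynomial.expand ℤ q (S p * G)).coeff m := by
        rcases m with _ | m
        · rw [co_neg _ (by simp)]; simp
        · rw [coeff_X_mul]
          have : ((m + 1 : ℕ) : ℤ) - 1 = m := by push_cast; ring
          rw [this, co_nat]
      rw [e1, e2]
      exact this
  have hstep : ∀ n : ℤ, ps G (J n) - ps G (J (n - p)) =
      co (Polynomial.expand ℤ q (S p * G)) n := fun n => step_J hpq hc G (hJ n) (hJ (n - p))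
  have hneg : ∀ n : ℤ, n < 0 → ps G (J n) = 0 := by
    intro n hn
    apply ps_neg
    have h1 := (hJ n).1
    have h2 : n / q < 0 := Int.ediv_neg_of_neg_of_pos hn (by omega)
    omega
  have key : ∀ k : ℕ, ∀ n : ℤ, n < k → co F n = ps G (J n) - ps G (J (n - 1)) := by
    intro k
    induction k with
    | zero =>
      intro n hn
      have hn' : n < 0 := by simpa using hn
      rw [co_neg _ hn', hneg n hn', hneg (n - 1) (by omega), sub_zero]
    | succ k ih =>
      intro n hn
      rcases lt_or_ge n 0 with h | h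
      · rw [co_neg _ h, hneg n h, hneg (n - 1) (by omega), sub_zero]
      · have h1 := ih (n - p) (by push_cast at hn; omega)
        have h2 := hrec n
        have h3 := hstep n
        have h4 := hstep (n - 1)
        have e : n - 1 - (p : ℤ) = n - p - 1 := by ring
        rw [e] at h4
        linarith
  intro n
  exact key (n.toNat + 1) n (by omega)

/-- consecutive values of `J` -/
theorem J_diff {p q : ℕ} (hp : 2 < p) (hpq : p < q) {n a b c : ℤ}
    (ha : IsJ p q n a) (hb : IsJ p q (n - 1) b) (hcc : IsJ p q (n - 2) c) (hc : Nat.Coprime p q) :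
    |a - b| ≤ p ∧ |a - b| + |b - c| ≤ p := by
  obtain ⟨a1, a2, a3⟩ := ha
  obtain ⟨b1, b2, b3⟩ := hb
  obtain ⟨c1, c2, c3⟩ := hcc
  have hq' : (0 : ℤ) < q := by omega
  have hm1 : (n - 1) / q = n / q ∨ (n - 1) / q = n / q - 1 := by
    rcases ediv_sub_cases (p := 1) (q := q) (by omega) (by omega) n with h | h
    · left; simpa using h
    · right; simpa using h.1
  have hm2 : (n - 2) / q = n / q ∨ (n - 2) / q = n / q - 1 := by
    rcases ediv_sub_cases (p := 2) (q := q) (by omega) (by omega) n with h | h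
    · left; simpa using h
    · right; simpa using h.1
  have hm3 : (n - 2) / q ≤ (n - 1) / q := Int.ediv_le_ediv hq' (by omega)
  have hco : IsCoprime (p : ℤ) (q : ℤ) := by
    rw [Int.isCoprime_iff_gcd_eq_one]; simpa [Int.gcd_natCast_natCast] using hc
  -- `q (a - b) ≡ 1`, `q (b - c) ≡ 1`
  have d1 : (p : ℤ) ∣ q * (a - b) - 1 := by
    have := dvd_sub a3 b3
    have e : (q : ℤ) * a - n - (q * b - (n - 1)) = q * (a - b) - 1 := by ring
    rwa [e] at this
  have d2 : (p : ℤ) ∣ q * (b - c) - 1 := by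
    have := dvd_sub b3 c3
    have e : (q : ℤ) * b - (n - 1) - (q * c - (n - 2)) = q * (b - c) - 1 := by ring
    rwa [e] at this
  have d3 : (p : ℤ) ∣ (a - b) - (b - c) := by
    have := dvd_sub d1 d2
    have e : (q : ℤ) * (a - b) - 1 - (q * (b - c) - 1) = q * ((a - b) - (b - c)) := by ring
    rw [e] at this
    exact hco.dvd_of_dvd_mul_left this
  have n1 : ∀ z : ℤ, (p : ℤ) ∣ q * z - 1 → z ≠ p ∧ z ≠ -p := by
    intro z hz
    have hno : ¬ (p : ℤ) ∣ 1 := by
      intro h
      have := Int.le_of_dvd one_pos h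
      omega
    constructor
    · rintro rfl
      apply hno
      have := dvd_sub (dvd_mul_left (p : ℤ) q) hz
      simpa using this
    · rintro rfl
      apply hno
      have := dvd_sub ((dvd_neg.2 (dvd_refl (p : ℤ))).mul_left (q : ℤ)) hz
      simpa using this
  obtain ⟨n1a, n1b⟩ := n1 _ d1
  obtain ⟨n2a, n2b⟩ := n1 _ d2
  obtain ⟨k, hk⟩ := d3
  have hk1 : k < 2 := by
    by_contra h
    have : 2 * (p : ℤ) ≤ p * k := by nlinarith
    omega
  have hk2 : -2 < k := by
    by_contra h
    have : (p : ℤ) * k ≤ -(2 * p) := by nlinarith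
    omega
  have hk3 : k = -1 ∨ k = 0 ∨ k = 1 := by omega
  refine ⟨by rw [abs_le]; omega, ?_⟩
  rcases hk3 with rfl | rfl | rfl
  · rw [mul_neg, mul_one] at hk
    rcases abs_cases (a - b) with h1 | h1 <;> rcases abs_cases (b - c) with h2 | h2 <;> omega
  · rw [mul_zero] at hk
    rcases abs_cases (a - b) with h1 | h1 <;> rcases abs_cases (b - c) with h2 | h2 <;> omega
  · rw [mul_one] at hk
    rcases abs_cases (a - b) with h1 | h1 <;> rcases abs_cases (b - c) with h2 | h2 <;> omega

/-- Both cases with `t = Φ_{p q}`. -/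
theorem bd_phi {p q : ℕ} (hp : 2 < p) (hpq : p < q) (hc : Nat.Coprime p q) {G F : ℤ[X]} {H : ℤ}
    (hG : Bd H G)
    (hF : F * (X ^ p - 1) = (X - 1) * Polynomial.expand ℤ q (S p * G)) :
    Bd (p * H) F ∧ Bd (p * H) ((X - 1) * F) := by
  choose J hJ using fun n : ℤ => exists_J (p := p) (q := q) (by omega) hc n
  have hco := coeff_phi (by omega) hpq hc G F hF J hJ
  have hH := hG.nonneg
  constructor
  · intro n
    rw [← co_nat, hco]
    refine (ps_lip' hG _ _).trans ?_
    apply mul_le_mul_of_nonneg_right _ hH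
    exact (J_diff hp hpq (hJ n) (hJ (n - 1)) (hJ (n - 2)) hc).1
  · intro n
    have e : ((X - 1) * F).coeff n = co F ((n : ℤ) - 1) - co F n := by
      rw [sub_mul, one_mul, coeff_sub, co_nat]
      congr 1
      rcases n with _ | n
      · rw [co_neg _ (by simp)]; simp
      · rw [coeff_X_mul]
        have : ((n + 1 : ℕ) : ℤ) - 1 = n := by push_cast; ring
        rw [this, co_nat]
    rw [e, hco, hco]
    have e2 : (n : ℤ) - 1 - 1 = n - 2 := by ring
    rw [e2]
    have h1 := ps_lip' hG (J (n - 1)) (J (n - 2))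
    have h2 := ps_lip' hG (J n) (J (n - 1))
    have h3 := (J_diff hp hpq (hJ n) (hJ (n - 1)) (hJ (n - 2)) hc).2
    calc |ps G (J (n - 1)) - ps G (J (n - 2)) - (ps G (J n) - ps G (J (n - 1)))|
        ≤ |ps G (J (n - 1)) - ps G (J (n - 2))| + |ps G (J n) - ps G (J (n - 1))| :=
          abs_sub _ _
      _ ≤ |J (n - 1) - J (n - 2)| * H + |J n - J (n - 1)| * H := add_le_add h1 h2
      _ = (|J n - J (n - 1)| + |J (n - 1) - J (n - 2)|) * H := by ring
      _ ≤ p * H := mul_le_mul_of_nonneg_right h3 hH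

/-! ### The sixteen cases -/

theorem S_prime {p : ℕ} (hp : p.Prime) : S p = cyclotomic p ℤ := by
  have := Fact.mk hp
  rw [cyclotomic_prime ℤ p, S]

theorem S_ne_zero {p : ℕ} (hp : 0 < p) : S p ≠ 0 := by
  intro h
  have := congrArg (fun f => Polynomial.coeff f 0) h
  simp only [coeff_S, if_pos hp, coeff_zero] at this
  exact one_ne_zero this

theorem X_sub_one_ne_zero : (X - 1 : ℤ[X]) ≠ 0 := by
  have := X_sub_C_ne_zero (1 : ℤ)
  simpa using this

theorem expand_S {p q : ℕ} (hp : p.Prime) (hq : q.Prime) (hne : p ≠ q) :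
    expand ℤ p (S q) = cyclotomic (p * q) ℤ * S q := by
  rw [S_prime hq, cyclotomic_expand_eq_cyclotomic_mul hp, mul_comm q p]
  intro h
  exact hne ((Nat.prime_dvd_prime_iff_eq hp hq).1 h)

theorem expand_S_mul (p q : ℕ) : expand ℤ p (S q) * (X ^ p - 1) = X ^ (p * q) - 1 := by
  have := congrArg (expand ℤ p) (S_mul q)
  simp only [map_mul, map_sub, map_pow, expand_X, map_one] at this
  rw [this, ← pow_mul]

/-- `Φ_{p q} (y) (y ^ p - 1) = (y - 1) S_p (y ^ q)` -/
theorem phi_mul {p q : ℕ} (hp : p.Prime) (hq : q.Prime) (hne : p ≠ q) :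
    cyclotomic (p * q) ℤ * (X ^ p - 1) = (X - 1) * expand ℤ q (S p) := by
  have h3 : expand ℤ q (S p) * (X ^ q - 1) = X ^ (p * q) - 1 := by
    rw [expand_S_mul, mul_comm]
  apply mul_right_cancel₀ (S_ne_zero hq.pos)
  calc cyclotomic (p * q) ℤ * (X ^ p - 1) * S q
      = (cyclotomic (p * q) ℤ * S q) * (X ^ p - 1) := by ring
    _ = expand ℤ q (S p) * (X ^ q - 1) := by rw [← expand_S hp hq hne, expand_S_mul, h3]
    _ = expand ℤ q (S p) * (S q * (X - 1)) := by rw [S_mul]
    _ = (X - 1) * expand ℤ q (S p) * S q := by ring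

theorem S_mul_phi {p q : ℕ} (hp : p.Prime) (hq : q.Prime) (hne : p ≠ q) :
    S p * cyclotomic (p * q) ℤ = expand ℤ q (S p) := by
  apply mul_right_cancel₀ X_sub_one_ne_zero
  have h1 := phi_mul hp hq hne
  rw [← S_mul p] at h1
  linear_combination h1

/-- the four possible factors at the bottom -/
def Bot (p : ℕ) (A : ℤ[X]) : Prop := A = 1 ∨ A = X - 1 ∨ A = S p ∨ A = (X - 1) * S p

/-- the four local factors -/
def Typ (p q : ℕ) (t : ℤ[X]) : Prop :=
  t = 1 ∨ t = S q ∨ t = cyclotomic (p * q) ℤ ∨ t = cyclotomic (p * q) ℤ * S q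

theorem four {p : ℕ} (hp : 2 ≤ p) {A F : ℤ[X]} {H : ℤ} (hA : Bot p A) (h : Bd H F) :
    Bd (p * H) (A * F) := by
  have hH := h.nonneg
  have hp' : (2 : ℤ) ≤ p := by exact_mod_cast hp
  rcases hA with rfl | rfl | rfl | rfl
  · rw [one_mul]
    exact h.mono (by nlinarith)
  · have := h.X_pow_sub_one_mul 1
    rw [pow_one] at this
    exact this.mono (by nlinarith)
  · exact h.S_mul' p
  · have := h.X_pow_sub_one_mul p
    rw [mul_comm (X - 1), S_mul]
    exact this.mono (by nlinarith)

theorem bd_one_X_sub_one : Bd 1 (X - 1) := by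
  intro n
  rw [coeff_sub, coeff_X, coeff_one]
  split_ifs <;> simp

theorem sixteen {p q : ℕ} (hp : p.Prime) (hq : q.Prime) (hp2 : 2 < p) (hpq : p < q)
    {A t G : ℤ[X]} {H : ℤ} (hA : Bot p A) (ht : Typ p q t) (hG : Bd H G) :
    Bd (p * H) (A * (t * expand ℤ q G)) := by
  have hc : Nat.Coprime p q := (Nat.coprime_primes hp hq).2 hpq.ne
  rcases ht with rfl | rfl | rfl | rfl
  · rw [one_mul]
    exact four (by omega) hA (hG.expand hq.pos)
  · apply four (by omega) hA
    apply Bd.mul_expand hq.pos _ _ hG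
    · intro n hn
      rw [coeff_S, if_neg (by omega)]
    · intro n
      rw [coeff_S]
      split_ifs <;> simp
  · have hF : (cyclotomic (p * q) ℤ * expand ℤ q G) * (X ^ p - 1) =
        (X - 1) * expand ℤ q (S p * G) := by
      rw [map_mul]
      linear_combination (expand ℤ q G) * phi_mul hp hq hpq.ne
    obtain ⟨h1, h2⟩ := bd_phi hp2 hpq hc hG hF
    have e : S p * (cyclotomic (p * q) ℤ * expand ℤ q G) = expand ℤ q (S p * G) := by
      rw [map_mul, ← mul_assoc, S_mul_phi hp hq hpq.ne]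
    rcases hA with rfl | rfl | rfl | rfl
    · rw [one_mul]; exact h1
    · exact h2
    · rw [e]
      exact (hG.S_mul' p).expand hq.pos
    · rw [mul_assoc, e]
      apply Bd.mul_expand hq.pos _ bd_one_X_sub_one (hG.S_mul' p)
      intro n hn
      rw [coeff_sub, coeff_X, coeff_one, if_neg (by omega), if_neg (by omega), sub_zero]
  · apply four (by omega) hA
    rw [← expand_S hp hq hpq.ne]
    exact bd_both hq.pos hc hG

/-! ### The factorisation -/

/-- `(x ^ (p q ^ b) - 1) / (x ^ p - 1)` -/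
noncomputable def D (p q b : ℕ) : ℤ[X] :=
  ∏ i ∈ range b, expand ℤ (q ^ i) (cyclotomic (p * q) ℤ * S q)

theorem D_succ (p q b : ℕ) :
    D p q (b + 1) = (cyclotomic (p * q) ℤ * S q) * expand ℤ q (D p q b) := by
  unfold D
  rw [Finset.prod_range_succ', map_prod, pow_zero, expand_one, mul_comm]
  congr 1
  apply Finset.prod_congr rfl
  intro i _
  rw [expand_expand, ← pow_succ']

theorem factor {p q : ℕ} (hp : p.Prime) (hq : q.Prime) (hne : p ≠ q) (b : ℕ) :
    (X : ℤ[X]) ^ (p * q ^ b) - 1 = (X ^ p - 1) * D p q b := by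
  induction b with
  | zero => unfold D; simp
  | succ b ih =>
    have h1 := congrArg (expand ℤ q) ih
    simp only [map_mul, map_sub, map_pow, expand_X, map_one] at h1
    rw [D_succ, ← expand_S hp hq hne]
    have h2 : ((X : ℤ[X]) ^ q) ^ (p * q ^ b) = X ^ (p * q ^ (b + 1)) := by
      rw [← pow_mul]
      congr 1
      ring
    have h3 := expand_S_mul p q
    rw [← h2, h1, ← pow_mul, mul_comm q p, ← h3]
    ring

theorem factor2 (p : ℕ) : (X : ℤ[X]) ^ p - 1 = (X - 1) * S p := by
  rw [mul_comm, S_mul]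

theorem dvd_irr {p f : ℤ[X]} (hp : Irreducible p) (hf : f ∣ p) :
    Associated f 1 ∨ Associated f p := by
  obtain ⟨g, hg⟩ := hf
  rcases hp.isUnit_or_isUnit hg with h | h
  · left; exact associated_one_iff_isUnit.2 h
  · right
    obtain ⟨u, hu⟩ := h
    exact ⟨u, by rw [hu, ← hg]⟩

theorem irr_A {q : ℕ} (hq : q.Prime) (i : ℕ) : Irreducible (expand ℤ (q ^ i) (S q)) := by
  have : expand ℤ (q ^ i) (S q) = cyclotomic (q ^ (i + 1)) ℤ := by
    rw [cyclotomic_prime_pow_eq_geom_sum hq]
    unfold S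
    simp [map_sum, map_pow]
  rw [this]
  exact cyclotomic.irreducible (pow_pos hq.pos _)

theorem irr_B {p q : ℕ} (hp : p.Prime) (hq : q.Prime) (i : ℕ) :
    Irreducible (expand ℤ (q ^ i) (cyclotomic (p * q) ℤ)) := by
  have : expand ℤ (q ^ i) (cyclotomic (p * q) ℤ) = cyclotomic (p * q ^ (i + 1)) ℤ := by
    induction i with
    | zero => simp
    | succ i ih =>
      rw [pow_succ' q i, ← expand_expand, ih, cyclotomic_expand_eq_cyclotomic hq
        (Dvd.dvd.mul_left (dvd_pow_self q (by omega)) p)]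
      congr 1
      ring
  rw [this]
  exact cyclotomic.irreducible (Nat.mul_pos hp.pos (pow_pos hq.pos _))

theorem dvd_two {p q : ℕ} (hp : p.Prime) (hq : q.Prime) (i : ℕ) {f : ℤ[X]}
    (hf : f ∣ expand ℤ (q ^ i) (cyclotomic (p * q) ℤ * S q)) :
    ∃ h, Typ p q h ∧ Associated f (expand ℤ (q ^ i) h) := by
  rw [map_mul] at hf
  obtain ⟨f1, f2, h1, h2, rfl⟩ := exists_dvd_and_dvd_of_dvd_mul hf
  rcases dvd_irr (irr_B hp hq i) h1 with h1 | h1 <;> rcases dvd_irr (irr_A hq i) h2 with h2 | h2
  · exact ⟨1, Or.inl rfl, by simpa using h1.mul_mul h2⟩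
  · exact ⟨S q, Or.inr (Or.inl rfl), by simpa using h1.mul_mul h2⟩
  · exact ⟨_, Or.inr (Or.inr (Or.inl rfl)), by simpa using h1.mul_mul h2⟩
  · exact ⟨_, Or.inr (Or.inr (Or.inr rfl)), by simpa using h1.mul_mul h2⟩

/-- The product `∏_{i < b} h_i (x ^ (q ^ i))`. -/
noncomputable def F (q : ℕ) (b : ℕ) (h : ℕ → ℤ[X]) : ℤ[X] := ∏ i ∈ range b, expand ℤ (q ^ i) (h i)

theorem F_succ (q b : ℕ) (h : ℕ → ℤ[X]) :
    F q (b + 1) h = h 0 * expand ℤ q (F q b fun i => h (i + 1)) := by
  unfold F
  rw [Finset.prod_range_succ', map_prod, pow_zero, expand_one, mul_comm]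
  congr 1
  apply Finset.prod_congr rfl
  intro i _
  rw [expand_expand, ← pow_succ']

theorem dvd_prod {p q : ℕ} (hp : p.Prime) (hq : q.Prime) : ∀ (b : ℕ) (f : ℤ[X]), f ∣ D p q b →
    ∃ h : ℕ → ℤ[X], (∀ i, Typ p q (h i)) ∧ Associated f (F q b h) := by
  intro b
  induction b with
  | zero =>
    intro f hf
    refine ⟨fun _ => 1, fun _ => Or.inl rfl, ?_⟩
    unfold F
    unfold D at hf
    simpa using associated_one_iff_isUnit.2 (isUnit_of_dvd_one (by simpa using hf))
  | succ b ih =>
    intro f hf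
    unfold D at hf
    rw [Finset.prod_range_succ] at hf
    obtain ⟨f1, f2, h1, h2, rfl⟩ := exists_dvd_and_dvd_of_dvd_mul hf
    obtain ⟨h, hh, ha⟩ := ih f1 h1
    obtain ⟨t, ht, hb⟩ := dvd_two hp hq b h2
    refine ⟨fun i => if i = b then t else h i, fun i => ?_, ?_⟩
    · by_cases hi : i = b
      · simpa [hi] using ht
      · simpa [hi] using hh i
    · unfold F at ha ⊢
      rw [Finset.prod_range_succ]
      have e : ∏ i ∈ range b, expand ℤ (q ^ i) (if i = b then t else h i) =
          ∏ i ∈ range b, expand ℤ (q ^ i) (h i) := by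
        apply Finset.prod_congr rfl
        intro i hi
        rw [if_neg (by rw [Finset.mem_range] at hi; omega)]
      rw [e]
      simp only [↓reduceIte]
      exact ha.mul_mul hb

theorem typ_dvd {p q : ℕ} {t : ℤ[X]} (ht : Typ p q t) : t ∣ cyclotomic (p * q) ℤ * S q := by
  rcases ht with rfl | rfl | rfl | rfl
  · exact one_dvd _
  · exact dvd_mul_left _ _
  · exact dvd_mul_right _ _
  · exact dvd_rfl

theorem expand_dvd (n : ℕ) {f g : ℤ[X]} (h : f ∣ g) : expand ℤ n f ∣ expand ℤ n g := by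
  obtain ⟨c, rfl⟩ := h
  exact ⟨expand ℤ n c, by rw [map_mul]⟩

theorem F_dvd {p q : ℕ} (b : ℕ) (h : ℕ → ℤ[X]) (hh : ∀ i, Typ p q (h i)) : F q b h ∣ D p q b := by
  unfold F D
  apply Finset.prod_dvd_prod_of_dvd
  intro i _
  exact expand_dvd _ (typ_dvd (hh i))

theorem dvd_bot {p : ℕ} (hp : p.Prime) {f : ℤ[X]} (hf : f ∣ X ^ p - 1) :
    ∃ A, Bot p A ∧ Associated f A := by
  rw [factor2] at hf
  obtain ⟨f1, f2, h1, h2, rfl⟩ := exists_dvd_and_dvd_of_dvd_mul hf
  have hp1 : Irreducible (X - 1 : ℤ[X]) := by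
    have := (prime_X_sub_C (1 : ℤ)).irreducible
    simpa using this
  have hp2 : Irreducible (S p) := by
    rw [S_prime hp]; exact cyclotomic.irreducible hp.pos
  rcases dvd_irr hp1 h1 with h1 | h1 <;> rcases dvd_irr hp2 h2 with h2 | h2
  · exact ⟨1, Or.inl rfl, by simpa using h1.mul_mul h2⟩
  · exact ⟨S p, Or.inr (Or.inr (Or.inl rfl)), by simpa using h1.mul_mul h2⟩
  · exact ⟨_, Or.inr (Or.inl rfl), by simpa using h1.mul_mul h2⟩
  · exact ⟨_, Or.inr (Or.inr (Or.inr rfl)), by simpa using h1.mul_mul h2⟩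

theorem height_of_associated {f g : ℤ[X]} (h : Associated f g) : height f = height g := by
  have key : ∀ f g : ℤ[X], Associated f g → height f ≤ height g := by
    intro f g h
    obtain ⟨u, hu⟩ := h.symm
    obtain ⟨r, hr, hru⟩ := Polynomial.isUnit_iff.1 u.isUnit
    unfold height
    apply Finset.sup_le
    intro k _
    have : (f.coeff k).natAbs = (g.coeff k).natAbs := by
      rw [← hu, ← hru, coeff_mul_C, Int.natAbs_mul, Int.natAbs_of_isUnit hr, mul_one]
    rw [this]
    exact le_height g k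
  exact le_antisymm (key f g h) (key g f h.symm)

theorem exists_height (f : ℤ[X]) : ∃ k, (f.coeff k).natAbs = height f := by
  by_cases h : f.support.Nonempty
  · obtain ⟨k, _, hk⟩ := Finset.exists_mem_eq_sup f.support h fun k => (f.coeff k).natAbs
    exact ⟨k, hk.symm⟩
  · rw [Finset.not_nonempty_iff_eq_empty] at h
    refine ⟨0, ?_⟩
    unfold height
    have h0 : f = 0 := Polynomial.support_eq_empty.1 h
    rw [h0]
    simp

/-- coefficients of `S_p S_q` at `p - 1 + q c` -/
theorem coeff_T {p q : ℕ} (hp : 0 < p) (hpq : p ≤ q) (c : ℕ) :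
    (S p * S q).coeff (p - 1 + q * c) = if c = 0 then (p : ℤ) else 0 := by
  have h : (S p * S q).coeff (p - 1 + q * c) =
      ∑ j ∈ range p, if j ≤ p - 1 + q * c ∧ p - 1 + q * c - j < q then (1 : ℤ) else 0 := by
    have : S p * S q = ∑ j ∈ range p, X ^ j * S q := by
      conv_lhs => rw [S]
      rw [Finset.sum_mul]
    rw [this, finsetSum_coeff]
    apply Finset.sum_congr rfl
    intro j _
    rw [coeff_X_pow_mul', coeff_S]
    split_ifs with h1 h2 h3 h4 <;> first | rfl | (exfalso; tauto)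
  rw [h]
  split_ifs with hc
  · subst hc
    rw [Finset.sum_congr rfl (g := fun _ => (1 : ℤ))]
    · simp
    · intro j hj
      rw [Finset.mem_range] at hj
      rw [if_pos]
      constructor <;> omega
  · apply Finset.sum_eq_zero
    intro j hj
    rw [Finset.mem_range] at hj
    rw [if_neg]
    rintro ⟨_, h2⟩
    have : q * 1 ≤ q * c := Nat.mul_le_mul_left q (by omega)
    omega

/-- `Φ_p (x) Φ_q (x) G (x ^ q)` has the height `p` times the height of `G`, at least. -/
theorem lower {p q : ℕ} (hp : p.Prime) (hpq : p < q) (G : ℤ[X]) :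
    p * height G ≤ height ((S p * S q) * expand ℤ q G) := by
  obtain ⟨k, hk⟩ := exists_height G
  have h2 := hp.two_le
  have h := le_height ((S p * S q) * expand ℤ q G) (p - 1 + q * k)
  rw [coeff_mul_expand (by omega) _ _ (p - 1) k (by omega)] at h
  · have h0 := coeff_T (p := p) (q := q) hp.pos hpq.le 0
    rw [mul_zero, add_zero, if_pos rfl] at h0
    rw [h0, Int.natAbs_mul, Int.natAbs_natCast, hk] at h
    exact h
  · intro c hc
    rw [coeff_T hp.pos hpq.le, if_neg (by omega)]

/-! ### The maximum exists -/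

theorem dvd_prod_irr {ι : Type} [DecidableEq ι] (p : ι → ℤ[X]) : ∀ (s : Finset ι),
    (∀ i ∈ s, Irreducible (p i)) → ∀ f : ℤ[X], f ∣ ∏ i ∈ s, p i →
    ∃ t ⊆ s, Associated f (∏ i ∈ t, p i) := by
  intro s
  induction s using Finset.induction_on with
  | empty =>
    intro _ f hf
    exact ⟨∅, subset_rfl, by
      simpa using associated_one_iff_isUnit.2 (isUnit_of_dvd_one (by simpa using hf))⟩
  | insert a s ha ih =>
    intro hs f hf
    rw [Finset.prod_insert ha] at hf
    obtain ⟨f1, f2, h1, h2, rfl⟩ := exists_dvd_and_dvd_of_dvd_mul hf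
    obtain ⟨t, hts, ht⟩ := ih (fun i hi => hs i (Finset.mem_insert_of_mem hi)) f2 h2
    obtain ⟨g, hg⟩ := h1
    rcases (hs a (Finset.mem_insert_self a s)).isUnit_or_isUnit hg with h | h
    · refine ⟨t, hts.trans (Finset.subset_insert a s), ?_⟩
      have := (associated_one_iff_isUnit.2 h).mul_mul ht
      simpa using this
    · refine ⟨insert a t, Finset.insert_subset_insert a hts, ?_⟩
      rw [Finset.prod_insert fun h' => ha (hts h')]
      obtain ⟨u, hu⟩ := h
      exact Associated.mul_mul ⟨u, by rw [hu, ← hg]⟩ ht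

/-- the set of the heights of the divisors of `x ^ n - 1` -/
def heights (n : ℕ) : Set ℕ := {h | ∃ f : ℤ[X], f ∣ X ^ n - 1 ∧ height f = h}

/-- `B(n)`, the maximal height of a divisor of `x ^ n - 1` -/
noncomputable def B (n : ℕ) : ℕ := sSup (heights n)

theorem heights_finite {n : ℕ} (hn : 0 < n) : (heights n).Finite := by
  apply (n.divisors.powerset.image fun t => height (∏ d ∈ t, cyclotomic d ℤ)).finite_toSet.subset
  rintro h ⟨f, hf, rfl⟩
  rw [← prod_cyclotomic_eq_X_pow_sub_one hn] at hf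
  obtain ⟨t, hts, ht⟩ := dvd_prod_irr (fun d => cyclotomic d ℤ) n.divisors
    (fun d hd => cyclotomic.irreducible (Nat.pos_of_mem_divisors hd)) f hf
  rw [Finset.coe_image, Set.mem_image]
  exact ⟨t, by simpa using hts, (height_of_associated ht).symm⟩

theorem B_isGreatest {n : ℕ} (hn : 0 < n) : IsGreatest (heights n) (B n) := by
  have hb := (heights_finite hn).bddAbove
  exact ⟨Nat.sSup_mem ⟨height 1, 1, one_dvd _, rfl⟩ hb, fun h hh => le_csSup hb hh⟩

/-- the heights of the divisors of `(x ^ n - 1) / (x ^ p - 1)` -/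
def quotHeights (p n : ℕ) : Set ℕ :=
  {h | ∃ g : ℤ[X], (X ^ p - 1) * g ∣ X ^ n - 1 ∧ height g = h}

theorem quot_finite {p n : ℕ} (hn : 0 < n) : (quotHeights p n).Finite := by
  apply (heights_finite hn).subset
  rintro h ⟨g, hg, rfl⟩
  exact ⟨g, (dvd_mul_left _ _).trans hg, rfl⟩

/-- **`p ∣ B(p q ^ b)`** for all odd primes `p < q` and all `b ≥ 1`, where `B(n)` is the largest
height of a divisor of `x ^ n - 1` in `ℤ[x]`. More precisely `B(p q ^ b) = p M`, where `M` is the
largest height of a divisor of `(x ^ (p q ^ (b - 1)) - 1) / (x ^ p - 1)`. -/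
theorem result :
    (∀ n : ℕ, 0 < n → IsGreatest (heights n) (B n)) ∧
    ∀ p q b : ℕ, p.Prime → Odd p → q.Prime → p < q → 1 ≤ b →
      p ∣ B (p * q ^ b) ∧
      ∃ M, IsGreatest (quotHeights p (p * q ^ (b - 1))) M ∧ B (p * q ^ b) = p * M := by
  refine ⟨fun n hn => B_isGreatest hn, ?_⟩
  intro p q b hp hpo hq hlt hb
  obtain ⟨b, rfl⟩ : ∃ c, b = c + 1 := ⟨b - 1, by omega⟩
  rw [Nat.add_sub_cancel]
  have hpos : ∀ c, 0 < p * q ^ c := fun c => Nat.mul_pos hp.pos (pow_pos hq.pos _)
  have hp2 : 2 < p := by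
    have := hp.two_le
    rcases hpo with ⟨k, hk⟩
    omega
  have hbd := (quot_finite (p := p) (hpos b)).bddAbove
  have hne : (quotHeights p (p * q ^ b)).Nonempty := by
    refine ⟨height 1, 1, ?_, rfl⟩
    rw [mul_one, factor hp hq hlt.ne]
    exact dvd_mul_right _ _
  have hM : IsGreatest (quotHeights p (p * q ^ b)) (sSup (quotHeights p (p * q ^ b))) :=
    ⟨Nat.sSup_mem hne hbd, fun h hh => le_csSup hbd hh⟩
  set M := sSup (quotHeights p (p * q ^ b)) with hMdef
  have hXp : (X ^ p - 1 : ℤ[X]) ≠ 0 := by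
    have := X_pow_sub_C_ne_zero hp.pos (1 : ℤ)
    simpa using this
  have hquot : ∀ g : ℤ[X], (X ^ p - 1) * g ∣ X ^ (p * q ^ b) - 1 ↔ g ∣ D p q b := by
    intro g
    rw [factor hp hq hlt.ne, mul_dvd_mul_iff_left hXp]
  have hmain : B (p * q ^ (b + 1)) = p * M := by
    apply le_antisymm
    · obtain ⟨f, hf, hfB⟩ := (B_isGreatest (hpos (b + 1))).1
      rw [← hfB]
      rw [factor hp hq hlt.ne] at hf
      obtain ⟨f1, f2, h1, h2, rfl⟩ := exists_dvd_and_dvd_of_dvd_mul hf
      obtain ⟨A, hA, hA'⟩ := dvd_bot hp h1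
      obtain ⟨h, hh, hh'⟩ := dvd_prod hp hq (b + 1) f2 h2
      rw [height_of_associated (hA'.mul_mul hh'), F_succ]
      have hG : Bd M (F q b fun i => h (i + 1)) := by
        apply (bd_height _).mono
        have : height (F q b fun i => h (i + 1)) ≤ M := hM.2
          ⟨_, (hquot _).2 (F_dvd b _ fun i => hh (i + 1)), rfl⟩
        exact_mod_cast this
      have := sixteen hp hq hp2 hlt hA (hh 0) hG
      apply height_le
      push_cast
      exact this
    · obtain ⟨G, hG, hGM⟩ := hM.1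
      rw [← hGM]
      refine (lower hp hlt G).trans ?_
      apply (B_isGreatest (hpos (b + 1))).2
      refine ⟨_, ?_, rfl⟩
      rw [factor hp hq hlt.ne, D_succ, mul_assoc, factor2]
      have h3 := (hquot G).1 hG
      have h4 : expand ℤ q G ∣ expand ℤ q (D p q b) := expand_dvd q h3
      exact mul_dvd_mul (dvd_mul_left _ _) (mul_dvd_mul (dvd_mul_left _ _) h4)
  exact ⟨⟨M, hmain⟩, M, hM, hmain⟩

end Pool.Agent.Results.MP_b384de_nt.DivisibleByP
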